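import Pool.Agent.H95.GY.Targets

/-! The exit lemma (board gy_modules, EL). -/

set_option autoImplicit false
set_option linter.unusedSectionVars false

open Filter Topology MeasureTheory Set
open scoped Pointwise

universe u v

namespace Pool.Agent.H68.GY

open Pool.Agent.H95.GY

section Alg

variable {G : Type u} [Group G] {S V : Set G} {r : G → ℝ} {s t : ℝ} {g x y : G}

theorem Bw_mono (h : s ≤ t) : Bw S r s ⊆ Bw S r t := by
  rintro x ⟨l, h1, h2, h3⟩
  exact ⟨l, h1, h2.trans h, h3⟩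

theorem Bw_cons (hg : g ∈ S) (hx : x ∈ Bw S r s) : g * x ∈ Bw S r (s + r g) := by
  obtain ⟨l, h1, h2, h3⟩ := hx
  refine ⟨g :: l, ?_, ?_, ?_⟩
  · intro y hy
    rcases List.mem_cons.1 hy with rfl | hy
    · exact hg
    · exact h1 y hy
  · rw [List.map_cons, List.sum_cons]
    linarith
  · rw [List.prod_cons, h3]

theorem one_mem_Bw (h : 0 ≤ s) : (1 : G) ∈ Bw S r s := ⟨[], by simp, by simpa using h, rfl⟩

/-- the gauge -/
noncomputable def elS (S : Set G) (r : G → ℝ) (V : Set G) (y : G) : ℝ :=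
  sInf {s : ℝ | 0 ≤ s ∧ (s = 1 ∨ y ∈ Bw S r s * V)}

theorem elS_bdd : BddBelow {s : ℝ | 0 ≤ s ∧ (s = 1 ∨ y ∈ Bw S r s * V)} := ⟨0, fun _ hs => hs.1⟩

theorem elS_ne : {s : ℝ | 0 ≤ s ∧ (s = 1 ∨ y ∈ Bw S r s * V)}.Nonempty :=
  ⟨1, zero_le_one, Or.inl rfl⟩

theorem elS_nonneg : 0 ≤ elS S r V y := le_csInf elS_ne fun _ hs => hs.1

theorem elS_le_one : elS S r V y ≤ 1 := csInf_le elS_bdd ⟨zero_le_one, Or.inl rfl⟩

theorem elS_lt_iff {a : ℝ} :
    elS S r V y < a ↔ ∃ s, (0 ≤ s ∧ (s = 1 ∨ y ∈ Bw S r s * V)) ∧ s < a :=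
  csInf_lt_iff elS_bdd elS_ne

theorem elS_zero (h : y ∈ V) : elS S r V y = 0 :=
  le_antisymm (csInf_le elS_bdd ⟨le_rfl, Or.inr ⟨1, one_mem_Bw le_rfl, y, h, one_mul y⟩⟩)
    elS_nonneg

theorem elS_mem (h : elS S r V y ≠ 1) : y ∈ Bw S r 1 * V := by
  obtain ⟨s, ⟨h0, h1⟩, h2⟩ := elS_lt_iff.1 (lt_of_le_of_ne elS_le_one h)
  rcases h1 with h1 | h1
  · exact absurd h1 h2.ne
  · exact Set.mul_subset_mul_right (Bw_mono h2.le) h1

theorem elS_mul_le (hg : g ∈ S) (hr : 0 ≤ r g) : elS S r V (g * y) ≤ elS S r V y + r g := by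
  rw [← sub_le_iff_le_add]
  refine le_csInf elS_ne fun s hs => ?_
  rw [sub_le_iff_le_add]
  rcases hs with ⟨h0, rfl | h⟩
  · exact elS_le_one.trans (by linarith)
  · refine csInf_le elS_bdd ⟨by linarith, Or.inr ?_⟩
    obtain ⟨b, hb, v, hv, rfl⟩ := h
    exact ⟨g * b, Bw_cons hg hb, v, hv, mul_assoc g b v⟩

theorem elS_mul_abs (hS : ∀ g ∈ S, g⁻¹ ∈ S ∧ 0 < r g ∧ r g⁻¹ = r g) (hg : g ∈ S) :
    |elS S r V (g * y) - elS S r V y| ≤ r g := by
  obtain ⟨h1, h2, h3⟩ := hS g hg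
  have h4 := elS_mul_le (V := V) (y := y) hg h2.le
  have h5 := elS_mul_le (S := S) (r := r) (V := V) (y := g * y) h1 (by rw [h3]; exact h2.le)
  rw [inv_mul_cancel_left, h3] at h5
  rw [abs_le]
  constructor <;> linarith

end Alg

section Top

variable {G : Type u} [Group G] [TopologicalSpace G] [IsTopologicalGroup G]

theorem elS_open {S V : Set G} {r : G → ℝ} (hV : IsOpen V) (a : ℝ) :
    IsOpen {y | elS S r V y < a} := by
  have h1 : {y | elS S r V y < a} =
      ⋃ s ∈ {s : ℝ | 0 ≤ s ∧ s < a}, {y | s = 1 ∨ y ∈ Bw S r s * V} := by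
    ext y
    simp only [Set.mem_ofPred_eq, elS_lt_iff, mem_iUnion, exists_prop]
    constructor
    · rintro ⟨s, ⟨h0, h1⟩, h2⟩
      exact ⟨s, ⟨h0, h2⟩, h1⟩
    · rintro ⟨s, ⟨h0, h2⟩, h1⟩
      exact ⟨s, ⟨h0, h1⟩, h2⟩
  rw [h1]
  refine isOpen_biUnion fun s _ => ?_
  by_cases hs : s = 1
  · have : {y | s = 1 ∨ y ∈ Bw S r s * V} = univ := by
      ext y
      simp [hs]
    rw [this]
    exact isOpen_univ
  · have : {y | s = 1 ∨ y ∈ Bw S r s * V} = Bw S r s * V := by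
      ext y
      simp [hs]
    rw [this]
    exact hV.mul_left

theorem el_unif [LocallyCompactSpace G] {η : G → ℝ} (hη : Continuous η)
    (hc : HasCompactSupport η) {C : Set G} (hC : IsCompact C) {om : ℝ} (hom : 0 < om) :
    ∀ᶠ h in 𝓝 (1 : G), ∀ y ∈ C, ∀ z, |η (y⁻¹ * h * y * z) - η z| ≤ om := by
  obtain ⟨K0, hK0, hK0n⟩ := exists_compact_mem_nhds (1 : G)
  have hK' : IsCompact (K0 * tsupport η) := hK0.mul hc
  have h1 : ∀ᶠ h in 𝓝 (1 : G), ∀ z ∈ K0 * tsupport η, |η (h * z) - η z| ≤ om := by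
    refine hK'.eventually_forall_of_forall_eventually fun z hz => ?_
    have hcont : Continuous fun p : G × G => |η (p.1 * p.2) - η p.2| :=
      ((hη.comp (continuous_fst.mul continuous_snd)).sub (hη.comp continuous_snd)).abs
    have h0 : (fun p : G × G => |η (p.1 * p.2) - η p.2|) (1, z) < (fun _ => om) (1, z) := by
      simpa using hom
    exact (hcont.continuousAt.eventually_lt continuousAt_const h0).mono fun p hp => hp.le
  have h2 : ∀ᶠ h in 𝓝 (1 : G), h⁻¹ ∈ K0 := by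
    have h3 : Tendsto (fun h : G => h⁻¹) (𝓝 1) (𝓝 1) := by
      have := (continuous_inv (G := G)).tendsto 1
      rwa [inv_one] at this
    exact h3.eventually hK0n
  have h3 : ∀ᶠ h in 𝓝 (1 : G), ∀ z, |η (h * z) - η z| ≤ om := by
    filter_upwards [h1, h2] with h ha hb z
    by_cases hz : z ∈ K0 * tsupport η
    · exact ha z hz
    · have e1 : η z = 0 := image_eq_zero_of_notMem_tsupport fun h' =>
        hz ⟨1, mem_of_mem_nhds hK0n, z, h', one_mul z⟩
      have e2 : η (h * z) = 0 := image_eq_zero_of_notMem_tsupport fun h' =>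
        hz ⟨h⁻¹, hb, h * z, h', inv_mul_cancel_left h z⟩
      rw [e1, e2]
      simpa using hom.le
  refine hC.eventually_forall_of_forall_eventually fun y hy => ?_
  have h4 : Tendsto (fun p : G × G => p.2⁻¹ * p.1 * p.2) (𝓝 (1, y)) (𝓝 1) := by
    have hcont : Continuous fun p : G × G => p.2⁻¹ * p.1 * p.2 :=
      (continuous_snd.inv.mul continuous_fst).mul continuous_snd
    have := hcont.tendsto (1, y)
    simpa using this
  exact h4.eventually h3

end Top

section Meas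

variable {G : Type u} [Group G] [TopologicalSpace G] [IsTopologicalGroup G]
  [LocallyCompactSpace G] [T2Space G] [MeasurableSpace G] [BorelSpace G]

theorem el_meas {S V : Set G} {r : G → ℝ} (hV : IsOpen V) : Measurable (elS S r V) :=
  measurable_of_Iio fun a => (elS_open hV a).measurableSet

theorem el_cs {η : G → ℝ} (hη : Continuous η) (hc : HasCompactSupport η) (x : G) :
    Continuous (fun y => η (y⁻¹ * x)) ∧ HasCompactSupport (fun y => η (y⁻¹ * x)) :=
  ⟨hη.comp (continuous_inv.mul continuous_const),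
    hc.comp_homeomorph ((Homeomorph.inv G).trans (Homeomorph.mulRight x))⟩

theorem el_int (μ : Measure G) [μ.IsHaarMeasure] {η : G → ℝ} (hη : Continuous η)
    (hc : HasCompactSupport η) {ψ : G → ℝ} (hψ : Measurable ψ) (hb : ∀ y, |ψ y| ≤ 1) (x : G) :
    Integrable (fun y => ψ y * η (y⁻¹ * x)) μ := by
  obtain ⟨h1, h2⟩ := el_cs hη hc x
  refine (h1.integrable_of_hasCompactSupport h2).mono
    (hψ.mul h1.measurable).aestronglyMeasurable (ae_of_all _ fun y => ?_)
  rw [norm_mul]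
  exact mul_le_of_le_one_left (norm_nonneg _) (hb y)

/-- the smoothed gauge -/
noncomputable def elP (μ : Measure G) (S : Set G) (r : G → ℝ) (V : Set G) (η : G → ℝ) (x : G) : ℝ :=
  ∫ y, (1 - elS S r V y) * η (y⁻¹ * x) ∂μ

theorem el_one {S V : Set G} {r : G → ℝ} (y : G) : |1 - elS S r V y| ≤ 1 := by
  rw [abs_le]
  constructor <;> linarith [elS_nonneg (S := S) (r := r) (V := V) (y := y),
    elS_le_one (S := S) (r := r) (V := V) (y := y)]

theorem elP_diff (μ : Measure G) [μ.IsHaarMeasure] {S V : Set G} {r : G → ℝ} (hV : IsOpen V)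
    {η : G → ℝ} (hη : Continuous η) (hc : HasCompactSupport η) (g x : G) :
    Integrable (fun y => (elS S r V y - elS S r V (g * y)) * η (y⁻¹ * x)) μ ∧
    elP μ S r V η (g * x) - elP μ S r V η x =
      ∫ y, (elS S r V y - elS S r V (g * y)) * η (y⁻¹ * x) ∂μ := by
  have hm : Measurable (elS S r V) := el_meas hV
  have hmg : Measurable fun y => elS S r V (g * y) :=
    hm.comp (continuous_const.mul continuous_id).measurable
  have i1 : Integrable (fun y => (1 - elS S r V y) * η (y⁻¹ * x)) μ :=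
    el_int μ hη hc (measurable_const.sub hm) (fun y => el_one (S := S) (r := r) (V := V) y) x
  have i2 : Integrable (fun y => (1 - elS S r V (g * y)) * η (y⁻¹ * x)) μ :=
    el_int μ hη hc (measurable_const.sub hmg)
      (fun y => el_one (S := S) (r := r) (V := V) (g * y)) x
  have e : (fun y => (elS S r V y - elS S r V (g * y)) * η (y⁻¹ * x)) = fun y =>
      (1 - elS S r V (g * y)) * η (y⁻¹ * x) - (1 - elS S r V y) * η (y⁻¹ * x) := by
    funext y
    ring
  rw [e]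
  refine ⟨i2.sub i1, ?_⟩
  rw [integral_sub i2 i1]
  have h1 : elP μ S r V η (g * x) = ∫ y, (1 - elS S r V (g * y)) * η (y⁻¹ * x) ∂μ := by
    have h2 := integral_mul_left_eq_self (μ := μ)
      (fun y => (1 - elS S r V y) * η (y⁻¹ * (g * x))) g
    have h3 : (fun y => (1 - elS S r V (g * y)) * η ((g * y)⁻¹ * (g * x))) =
        fun y => (1 - elS S r V (g * y)) * η (y⁻¹ * x) := by
      funext y
      rw [mul_inv_rev, mul_assoc, inv_mul_cancel_left]
    rw [h3] at h2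
    exact h2.symm
  rw [h1]
  rfl

theorem elP_bd (μ : Measure G) [μ.IsHaarMeasure] {S V : Set G} {r : G → ℝ} (hV : IsOpen V)
    {η : G → ℝ} (hη : Continuous η) (hc : HasCompactSupport η) (h0 : ∀ z, 0 ≤ η z) (x : G) :
    0 ≤ elP μ S r V η x ∧ elP μ S r V η x ≤ ∫ y, η y⁻¹ ∂μ := by
  have hm : Measurable (elS S r V) := el_meas hV
  have i1 := el_int μ hη hc (measurable_const.sub hm)
    (fun y => el_one (S := S) (r := r) (V := V) y) x
  constructor
  · refine integral_nonneg fun y => mul_nonneg ?_ (h0 _)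
    linarith [elS_le_one (S := S) (r := r) (V := V) (y := y)]
  · obtain ⟨h1, h2⟩ := el_cs hη hc x
    have h3 : elP μ S r V η x ≤ ∫ y, η (y⁻¹ * x) ∂μ := by
      refine integral_mono i1 (h1.integrable_of_hasCompactSupport h2) fun y => ?_
      refine mul_le_of_le_one_left (h0 _) ?_
      linarith [elS_nonneg (S := S) (r := r) (V := V) (y := y)]
    have h4 := integral_mul_left_eq_self (μ := μ) (fun y => η (y⁻¹ * x)) x
    have h5 : (fun y => η ((x * y)⁻¹ * x)) = fun y => η y⁻¹ := by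
      funext y
      rw [mul_inv_rev, mul_assoc, inv_mul_cancel, mul_one]
    rw [h5] at h4
    rw [h4]
    exact h3

theorem elP_one (μ : Measure G) {S V : Set G} {r : G → ℝ} {η : G → ℝ}
    (hVi : ∀ y, y⁻¹ ∈ V → y ∈ V) (hz : ∀ z, z ∉ V → η z = 0) :
    elP μ S r V η 1 = ∫ y, η y⁻¹ ∂μ := by
  have h : (fun y => (1 - elS S r V y) * η (y⁻¹ * 1)) = fun y => η y⁻¹ := by
    funext y
    rw [mul_one]
    by_cases hy : y⁻¹ ∈ V
    · rw [elS_zero (hVi y hy), sub_zero, one_mul]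
    · rw [hz _ hy, mul_zero]
  show (∫ y, (1 - elS S r V y) * η (y⁻¹ * 1) ∂μ) = _
  rw [h]

theorem el_core (μ : Measure G) [μ.IsHaarMeasure] {A C0 V V' S : Set G} {r : G → ℝ} {η : G → ℝ}
    (hA : IsCompact A) (hC0 : IsCompact C0) (h1C0 : (1 : G) ∈ C0) (hC0i : ∀ g ∈ C0, g⁻¹ ∈ C0)
    (hV'o : IsOpen V') (hV'C : V' ⊆ C0) (hη : Continuous η) (hc : HasCompactSupport η)
    (h0 : ∀ z, 0 ≤ η z) (hVC : V ⊆ C0) {om : ℝ} (hom : 0 < om)
    (hun : ∀ h ∈ V, ∀ y ∈ C0 * (A * C0), ∀ z, |η (y⁻¹ * h * y * z) - η z| ≤ om)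
    {L : ℝ} (hL : 0 < L) (hS : ∀ g ∈ S, g⁻¹ ∈ S ∧ 0 < r g ∧ r g⁻¹ = r g)
    (hSA : Bw S r 1 ⊆ A) (hk : ∀ g ∈ S, ∃ k : ℕ, L ≤ k * r g ∧ ∀ j < k, g ^ j ∈ V) (g : G)
    (hg : g ∈ S) (x : G) :
    |elP μ S r V' η (g * x) - elP μ S r V' η x| ≤
      r g * ((∫ y, η y⁻¹ ∂μ) / L + om * μ.real (C0 * (A * C0))) := by
  obtain ⟨-, hr, -⟩ := hS g hg
  set φ : G → ℝ := elP μ S r V' η with hφ
  set M : ℝ := μ.real (C0 * (A * C0)) with hM
  set c : ℝ := ∫ y, η y⁻¹ ∂μ with hcdef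
  have hM0 : 0 ≤ M := measureReal_nonneg
  have hCc : IsCompact (C0 * (A * C0)) := hC0.mul (hA.mul hC0)
  have hbd : ∀ x, 0 ≤ φ x ∧ φ x ≤ c := fun x => elP_bd μ hV'o hη hc h0 x
  -- the second difference
  have hsec : g ∈ C0 → ∀ h ∈ V, ∀ x,
      |(φ (g * (h * x)) - φ (h * x)) - (φ (g * x) - φ x)| ≤ r g * om * M := by
    intro hgC h hh x
    obtain ⟨i1, e1⟩ := elP_diff μ (S := S) (r := r) hV'o hη hc g (h * x)
    obtain ⟨i2, e2⟩ := elP_diff μ (S := S) (r := r) hV'o hη hc g x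
    rw [e1, e2, ← integral_sub i1 i2]
    have h3 : ∀ y, y ∉ C0 * (A * C0) →
        (elS S r V' y - elS S r V' (g * y)) * η (y⁻¹ * (h * x)) -
          (elS S r V' y - elS S r V' (g * y)) * η (y⁻¹ * x) = 0 := by
      intro y hy
      have h4 : elS S r V' y = 1 := by
        by_contra hne
        obtain ⟨b, hb, v, hv, hbv⟩ := elS_mem hne
        exact hy ⟨1, h1C0, y, ⟨b, hSA hb, v, hV'C hv, hbv⟩, one_mul y⟩
      have h5 : elS S r V' (g * y) = 1 := by
        by_contra hne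
        obtain ⟨b, hb, v, hv, hbv⟩ := elS_mem hne
        exact hy ⟨g⁻¹, hC0i g hgC, g * y, ⟨b, hSA hb, v, hV'C hv, hbv⟩,
          inv_mul_cancel_left g y⟩
      rw [h4, h5]
      ring
    rw [← setIntegral_eq_integral_of_forall_compl_eq_zero h3]
    have hfin : μ (C0 * (A * C0)) < ⊤ := hCc.measure_lt_top
    have hpt : ∀ y ∈ C0 * (A * C0), ‖(elS S r V' y - elS S r V' (g * y)) * η (y⁻¹ * (h * x)) -
          (elS S r V' y - elS S r V' (g * y)) * η (y⁻¹ * x)‖ ≤ r g * om := by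
      intro y hy
      rw [← mul_sub, norm_mul, Real.norm_eq_abs, Real.norm_eq_abs]
      have h6 := hun h hh y hy (y⁻¹ * x)
      have h7 : y⁻¹ * h * y * (y⁻¹ * x) = y⁻¹ * (h * x) := by group
      rw [h7] at h6
      have h8 := elS_mul_abs (V := V') (y := y) hS hg
      rw [abs_sub_comm] at h8
      exact mul_le_mul h8 h6 (abs_nonneg _) hr.le
    exact norm_setIntegral_le_of_norm_le_const hfin hpt
  obtain ⟨k, hLk, hkV⟩ := hk g hg
  have hk0 : k ≠ 0 := by
    rintro rfl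
    rw [Nat.cast_zero, zero_mul] at hLk
    linarith
  have hkpos : (0 : ℝ) < k := by exact_mod_cast Nat.pos_of_ne_zero hk0
  have hterm : ∀ j < k, |(φ (g * (g ^ j * x)) - φ (g ^ j * x)) - (φ (g * x) - φ x)| ≤
      r g * om * M := by
    intro j hj
    rcases Nat.eq_zero_or_pos j with rfl | hj0
    · rw [pow_zero, one_mul, sub_self, abs_zero]
      positivity
    · have h1 : g ∈ C0 := by
        have := hkV 1 (by omega)
        rw [pow_one] at this
        exact hVC this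
      exact hsec h1 _ (hkV j hj) x
  have hsum : ∑ j ∈ Finset.range k, (φ (g * (g ^ j * x)) - φ (g ^ j * x)) =
      φ (g ^ k * x) - φ x := by
    have h1 := Finset.sum_range_sub (fun j => φ (g ^ j * x)) k
    rw [pow_zero, one_mul] at h1
    rw [← h1]
    refine Finset.sum_congr rfl fun j _ => ?_
    rw [← mul_assoc, ← pow_succ']
  have hmain : (k : ℝ) * (φ (g * x) - φ x) = (φ (g ^ k * x) - φ x) -
      ∑ j ∈ Finset.range k, ((φ (g * (g ^ j * x)) - φ (g ^ j * x)) - (φ (g * x) - φ x)) := by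
    rw [Finset.sum_sub_distrib, hsum, Finset.sum_const, Finset.card_range, nsmul_eq_mul]
    ring
  have hb1 : |∑ j ∈ Finset.range k, ((φ (g * (g ^ j * x)) - φ (g ^ j * x)) -
      (φ (g * x) - φ x))| ≤ k * (r g * om * M) := by
    refine (Finset.abs_sum_le_sum_abs _ _).trans ?_
    refine (Finset.sum_le_sum fun j hj => hterm j (Finset.mem_range.1 hj)).trans ?_
    rw [Finset.sum_const, Finset.card_range, nsmul_eq_mul]
  have hb2 : |φ (g ^ k * x) - φ x| ≤ c := by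
    rw [abs_le]
    constructor <;> linarith [(hbd (g ^ k * x)).1, (hbd (g ^ k * x)).2, (hbd x).1, (hbd x).2]
  have hb3 : (k : ℝ) * |φ (g * x) - φ x| ≤ c + k * (r g * om * M) := by
    have h1 : |(k : ℝ) * (φ (g * x) - φ x)| ≤ c + k * (r g * om * M) := by
      rw [hmain]
      exact (abs_sub _ _).trans (add_le_add hb2 hb1)
    rwa [abs_mul, abs_of_pos hkpos] at h1
  have hc0 : 0 ≤ c := (hbd 1).1.trans (hbd 1).2
  have hb4 : c ≤ k * (r g * (c / L)) := by
    have h1 : L * (c / L) ≤ (k * r g) * (c / L) :=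
      mul_le_mul_of_nonneg_right hLk (div_nonneg hc0 hL.le)
    rw [mul_div_cancel₀ _ hL.ne'] at h1
    linarith
  have hb5 : (k : ℝ) * |φ (g * x) - φ x| ≤ k * (r g * (c / L + om * M)) := by
    calc (k : ℝ) * |φ (g * x) - φ x| ≤ c + k * (r g * om * M) := hb3
      _ ≤ k * (r g * (c / L)) + k * (r g * om * M) := by linarith
      _ = k * (r g * (c / L + om * M)) := by ring
  exact le_of_mul_le_mul_left hb5 hkpos

end Meas

theorem pf_EL : T_EL.{u} := by
  intro G _ _ _ _ _ A W hA hW T hT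
  letI : MeasurableSpace G := borel G
  haveI : BorelSpace G := ⟨rfl⟩
  obtain ⟨K, hK, hKn⟩ := exists_compact_mem_nhds (1 : G)
  obtain ⟨U1, hU1o, hU1, hU1W⟩ := exists_open_nhds_one_mul_subset hW
  have hC0c : IsCompact (K ∪ K⁻¹) := hK.union hK.inv
  have h1C0 : (1 : G) ∈ K ∪ K⁻¹ := Or.inl (mem_of_mem_nhds hKn)
  have hC0i : ∀ g ∈ K ∪ K⁻¹, g⁻¹ ∈ K ∪ K⁻¹ := by
    rintro g (hg | hg)
    · exact Or.inr (by rwa [Set.mem_inv, inv_inv])
    · exact Or.inl hg
  obtain ⟨V', hV'o, h1V', hV'C, hV'W, hV'i⟩ : ∃ V' : Set G, IsOpen V' ∧ (1 : G) ∈ V' ∧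
      V' ⊆ K ∪ K⁻¹ ∧ V' * V' ⊆ W ∧ ∀ y, y⁻¹ ∈ V' → y ∈ V' := by
    refine ⟨(U1 ∩ interior K) ∩ (U1 ∩ interior K)⁻¹, ?_, ?_, ?_, ?_, ?_⟩
    · exact (hU1o.inter isOpen_interior).inter (hU1o.inter isOpen_interior).inv
    · have h1 : (1 : G) ∈ U1 ∩ interior K := ⟨hU1, mem_interior_iff_mem_nhds.2 hKn⟩
      exact ⟨h1, by rwa [Set.mem_inv, inv_one]⟩
    · exact fun y hy => Or.inl (interior_subset hy.1.2)
    · exact (Set.mul_subset_mul (fun y hy => hy.1.1) (fun y hy => hy.1.1)).trans hU1W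
    · rintro y ⟨h1, h2⟩
      rw [Set.mem_inv, inv_inv] at h2
      exact ⟨h2, h1⟩
  obtain ⟨η, hη1, hη0, hηc, hη01⟩ := exists_continuous_one_zero_of_isCompact
    (isCompact_singleton (x := (1 : G))) hV'o.isClosed_compl
    (by rw [Set.disjoint_singleton_left]; exact fun h => h h1V')
  have hηz : ∀ z, z ∉ V' → η z = 0 := fun z hz => hη0 hz
  set μ : Measure G := Measure.haar with hμ
  set c : ℝ := ∫ y, η y⁻¹ ∂μ with hcdef
  have hc : 0 < c := by
    obtain ⟨h1, h2⟩ := el_cs η.continuous hηc (1 : G)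
    have h3 := h1.integral_pos_of_hasCompactSupport_nonneg_nonzero (μ := μ) (x := 1) h2
      (fun y => (hη01 _).1) (by
        show η ((1 : G)⁻¹ * 1) ≠ 0
        rw [inv_one, mul_one, hη1 rfl]
        exact one_ne_zero)
    simpa only [mul_one] using h3
  set M : ℝ := μ.real ((K ∪ K⁻¹) * (A * (K ∪ K⁻¹))) with hM
  have hM0 : 0 ≤ M := measureReal_nonneg
  obtain ⟨om, hom, homT⟩ : ∃ om : ℝ, 0 < om ∧ om * M * T ≤ c / 4 := by
    refine ⟨c / (4 * (M + 1) * T), by positivity, ?_⟩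
    have h1 : c / (4 * (M + 1) * T) * M * T = (c / 4) * (M / (M + 1)) := by
      field_simp
    rw [h1]
    exact mul_le_of_le_one_right (by positivity) (by rw [div_le_one (by positivity)]; linarith)
  have hCc : IsCompact ((K ∪ K⁻¹) * (A * (K ∪ K⁻¹))) := hC0c.mul (hA.mul hC0c)
  refine ⟨{h | ∀ y ∈ (K ∪ K⁻¹) * (A * (K ∪ K⁻¹)), ∀ z, |η (y⁻¹ * h * y * z) - η z| ≤ om} ∩ K,
    inter_mem (el_unif η.continuous hηc hCc hom) hKn, 4 * T, by positivity, ?_⟩
  intro S r hS hSA hk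
  have hcore := el_core μ hA hC0c h1C0 hC0i hV'o hV'C η.continuous hηc (fun z => (hη01 z).1)
    (V := {h | ∀ y ∈ (K ∪ K⁻¹) * (A * (K ∪ K⁻¹)), ∀ z, |η (y⁻¹ * h * y * z) - η z| ≤ om} ∩ K)
    (fun y hy => Or.inl hy.2) hom (fun h hh => hh.1) (L := 4 * T) (by positivity) hS hSA hk
  set θ : ℝ := c / (4 * T) + om * M with hθ
  have hθT : θ * T ≤ c / 2 := by
    have h1 : c / (4 * T) * T = c / 4 := by
      field_simp
    rw [hθ, add_mul, h1]
    linarith
  have hθ0 : 0 ≤ θ := by positivity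
  have hlist : ∀ l : List G, (∀ g ∈ l, g ∈ S) →
      |elP μ S r V' η l.prod - elP μ S r V' η 1| ≤ (l.map r).sum * θ := by
    intro l
    induction l with
    | nil =>
      intro _
      simp
    | cons g l ih =>
      intro hl
      have h1 := ih fun g' hg' => hl g' (List.mem_cons_of_mem _ hg')
      have h2 := hcore g (hl g List.mem_cons_self) l.prod
      rw [List.prod_cons, List.map_cons, List.sum_cons, add_mul]
      have h3 := abs_add_le (elP μ S r V' η (g * l.prod) - elP μ S r V' η l.prod)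
        (elP μ S r V' η l.prod - elP μ S r V' η 1)
      rw [sub_add_sub_cancel] at h3
      exact h3.trans (add_le_add h2 h1)
  rintro x ⟨l, hlS, hlT, rfl⟩
  have h1 := hlist l hlS
  rw [elP_one μ hV'i hηz, ← hcdef] at h1
  have h2 : (l.map r).sum * θ ≤ c / 2 := by
    have h3 : (l.map r).sum * θ ≤ T * θ := mul_le_mul_of_nonneg_right hlT hθ0
    linarith
  have h3 : 0 < elP μ S r V' η l.prod := by
    have h4 := (abs_le.1 (h1.trans h2)).1
    linarith
  obtain ⟨y, hy⟩ : ∃ y, (1 - elS S r V' y) * η (y⁻¹ * l.prod) ≠ 0 := by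
    by_contra hne
    push Not at hne
    have h4 : elP μ S r V' η l.prod = 0 := by
      show (∫ y, (1 - elS S r V' y) * η (y⁻¹ * l.prod) ∂μ) = 0
      simp only [hne, integral_zero]
    exact h3.ne' h4
  have hy1 : elS S r V' y ≠ 1 := fun h => hy (by rw [h]; ring)
  have hy2 : y⁻¹ * l.prod ∈ V' := by
    by_contra h
    exact hy (by rw [hηz _ h, mul_zero])
  obtain ⟨b, hb, v, hv, hbv⟩ := elS_mem hy1
  refine ⟨b, hb, v * (y⁻¹ * l.prod), hV'W ⟨v, hv, _, hy2, rfl⟩, ?_⟩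
  have hbv' : b * v = y := hbv
  show b * (v * (y⁻¹ * l.prod)) = l.prod
  rw [← mul_assoc, hbv', mul_inv_cancel_left]

end Pool.Agent.H68.GY
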