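import Pool.Agent.H95.GY.Targets
import Pool.Agent.H54.CM.NSS

set_option autoImplicit false

open Filter Topology MeasureTheory Set
open scoped Pointwise

universe u v

namespace Pool.Agent.H68.GY

open Pool.Agent.H95.GY

open scoped Matrix.Norms.L2Operator in
theorem nor_nhd (m : ℕ) : ∃ O : Set (Matrix (Fin m) (Fin m) ℝ), IsOpen O ∧
    (1 : Matrix (Fin m) (Fin m) ℝ) ∈ O ∧
    ∀ g : Matrix (Fin m) (Fin m) ℝ, (∀ n : ℕ, g ^ n ∈ O) → g = 1 := by
  refine ⟨{x | ‖x - 1‖ < 1 / 2}, ?_, ?_, ?_⟩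
  · exact isOpen_lt ((continuous_id.sub continuous_const).norm) continuous_const
  · simp
  · intro g hg
    exact Pool.Agent.H54.CM.NSS.X (Matrix (Fin m) (Fin m) ℝ) g fun n => (hg n).le

theorem pf_NOR (hPWK : T_PWK.{u}) : T_NOR.{u} := by
  intro G _ _ _ _ E hE U hU
  haveI : CompactSpace E := isCompact_iff_compactSpace.1 hE
  have hU' : {x : E | (x : G) ∈ U} ∈ 𝓝 (1 : E) := by
    have h1 : ContinuousAt (fun x : E => (x : G)) 1 := continuous_subtype_val.continuousAt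
    exact h1.preimage_mem_nhds (by simpa using hU)
  obtain ⟨m, σ, hσ, -, hσ1⟩ := hPWK E _ hU'
  obtain ⟨O1, hO1, h1O1, hO1p⟩ := nor_nhd m
  have hN : ∀ x : G, x ∈ Subgroup.map E.subtype σ.ker ↔ ∃ y : E, σ y = 1 ∧ (y : G) = x := by
    intro x
    rw [Subgroup.mem_map]
    rfl
  refine ⟨Subgroup.map E.subtype σ.ker, ?_, ?_, ?_, ?_⟩
  · intro x hx
    obtain ⟨y, -, rfl⟩ := (hN x).1 hx
    exact y.2
  · have h2 : (Subgroup.map E.subtype σ.ker : Set G) = Subtype.val '' {y : E | σ y = 1} := by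
      ext x
      exact hN x
    rw [h2]
    exact ((isClosed_eq hσ continuous_const).isCompact).image continuous_subtype_val
  · intro x hx
    obtain ⟨y, hy, rfl⟩ := (hN x).1 hx
    exact hσ1 y hy
  · have h3 : IsOpen (σ ⁻¹' O1) := hO1.preimage hσ
    obtain ⟨O, hO, hOE⟩ := isOpen_induced_iff.1 h3
    have hmem : ∀ y : E, (y : G) ∈ O ↔ σ y ∈ O1 := fun y => by
      have : y ∈ Subtype.val ⁻¹' O ↔ y ∈ σ ⁻¹' O1 := by rw [hOE]
      exact this
    refine ⟨O, hO, fun x hx => ?_, fun H hHE hHO h hh => ?_⟩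
    · obtain ⟨y, hy, rfl⟩ := (hN x).1 hx
      rw [hmem, hy]
      exact h1O1
    · refine (hN h).2 ⟨⟨h, hHE hh⟩, hO1p _ fun n => ?_, rfl⟩
      rw [← map_pow, ← hmem]
      exact hHO (H.pow_mem hh n)

end Pool.Agent.H68.GY
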